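import Pool.Agent.Y969.SM.StmT

set_option autoImplicit false

/-! Project SX, job TWC: the complex form of the twisted second moment of a long polynomial
and a short monomial. -/

namespace Pool.Agent.Y726.SX

open Finset Filter MeasureTheory
open Pool.Agent.TH806
open Pool.Agent.W184.NZ
open Pool.Agent.H306R2.SM (om cl Yf)
open Pool.Agent.H262R4.TM (Rng Ck)

noncomputable section

/-- the polarization identity with fourth roots of unity -/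
lemma pol4 (X Y : ℂ) :
    ((‖(X + 1 * Y) / 2‖ ^ 2 : ℝ) : ℂ) - ((‖(X + (-1) * Y) / 2‖ ^ 2 : ℝ) : ℂ) +
      Complex.I * ((‖(X + Complex.I * Y) / 2‖ ^ 2 : ℝ) : ℂ) -
      Complex.I * ((‖(X + (-Complex.I) * Y) / 2‖ ^ 2 : ℝ) : ℂ) = X * (starRingEnd ℂ) Y := by
  have h : ∀ z : ℂ, ((‖z‖ ^ 2 : ℝ) : ℂ) = z * (starRingEnd ℂ) z := by
    intro z
    rw [Complex.mul_conj, Complex.normSq_eq_norm_sq]
  rw [h, h, h, h]
  simp only [map_div₀, map_add, map_mul, map_neg, map_one, map_ofNat, Complex.conj_I]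
  ring_nf
  simp only [Complex.I_sq]
  ring

lemma alg4 (a b c d z0 z1 z2 z3 : ℂ) : (a - b + Complex.I * c - Complex.I * d) - z1 =
    ((a - (z0 + (starRingEnd ℂ) 1 * z1 + 1 * z2 + 1 * (starRingEnd ℂ) 1 * z3) / 4) -
    (b - (z0 + (starRingEnd ℂ) (-1) * z1 + (-1) * z2 + (-1) * (starRingEnd ℂ) (-1) * z3) / 4)) +
    (Complex.I * (c - (z0 + (starRingEnd ℂ) Complex.I * z1 + Complex.I * z2 +
      Complex.I * (starRingEnd ℂ) Complex.I * z3) / 4) -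
    Complex.I * (d - (z0 + (starRingEnd ℂ) (-Complex.I) * z1 + (-Complex.I) * z2 +
      (-Complex.I) * (starRingEnd ℂ) (-Complex.I) * z3) / 4)) := by
  simp only [map_one, map_neg, Complex.conj_I]
  ring_nf
  simp only [Complex.I_sq]
  ring

lemma nrm4 {a b c d : ℂ} {r : ℝ} (ha : ‖a‖ ≤ r) (hb : ‖b‖ ≤ r) (hc : ‖c‖ ≤ r) (hd : ‖d‖ ≤ r) :
    ‖(a - b) + (Complex.I * c - Complex.I * d)‖ ≤ 4 * r := by
  have b1 := norm_add_le (a - b) (Complex.I * c - Complex.I * d)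
  have b2 := norm_sub_le a b
  have b3 := norm_sub_le (Complex.I * c) (Complex.I * d)
  have b4 : ∀ z : ℂ, ‖Complex.I * z‖ = ‖z‖ := fun z => by rw [norm_mul, Complex.norm_I, one_mul]
  rw [b4, b4] at b3
  linarith

lemma int4 {μ : Measure ℝ} {F1 F2 F3 F4 : ℝ → ℝ} (h1 : Integrable F1 μ) (h2 : Integrable F2 μ)
    (h3 : Integrable F3 μ) (h4 : Integrable F4 μ) :
    ∫ t, (((F1 t : ℝ) : ℂ) - ((F2 t : ℝ) : ℂ) + Complex.I * ((F3 t : ℝ) : ℂ) -
      Complex.I * ((F4 t : ℝ) : ℂ)) ∂μ =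
    ((∫ t, F1 t ∂μ : ℝ) : ℂ) - ((∫ t, F2 t ∂μ : ℝ) : ℂ) + Complex.I * ((∫ t, F3 t ∂μ : ℝ) : ℂ) -
      Complex.I * ((∫ t, F4 t ∂μ : ℝ) : ℂ) := by
  have g1 : Integrable (fun t => ((F1 t : ℝ) : ℂ)) μ := h1.ofReal
  have g2 : Integrable (fun t => ((F2 t : ℝ) : ℂ)) μ := h2.ofReal
  have g3 : Integrable (fun t => Complex.I * ((F3 t : ℝ) : ℂ)) μ := h3.ofReal.const_mul _
  have g4 : Integrable (fun t => Complex.I * ((F4 t : ℝ) : ℂ)) μ := h4.ofReal.const_mul _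
  have g12 : Integrable (fun t => ((F1 t : ℝ) : ℂ) - ((F2 t : ℝ) : ℂ)) μ := g1.sub g2
  have g123 : Integrable (fun t => ((F1 t : ℝ) : ℂ) - ((F2 t : ℝ) : ℂ) + Complex.I * ((F3 t : ℝ) : ℂ)) μ :=
    g12.add g3
  have e1 := integral_sub g123 g4
  have e2 := integral_add g12 g3
  have e3 := integral_sub g1 g2
  rw [e1, e2, e3, integral_const_mul, integral_const_mul, integral_complex_ofReal, integral_complex_ofReal,
    integral_complex_ofReal, integral_complex_ofReal]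

theorem t_TWC : Pool.Agent.Y969.SM.S_TWC := by
  intro θ hθ
  obtain ⟨η, hη, h⟩ := Pool.Agent.H262R4.TM.f_TSM2 θ hθ
  refine ⟨η, hη, ?_⟩
  filter_upwards [h, eventually_gt_atTop (3:ℝ), Real.tendsto_log_atTop.eventually_gt_atTop 1]
    with T hT hT3 hL κ hκ M B f hf hMB x hx1 hx2 hx3 hx4
  obtain ⟨m, n⟩ := x
  simp only at hx1 hx2 hx3 hx4
  have hk0 : (0:ℝ) < κ := by
    have := hκ.1
    nlinarith
  have hT0 : 0 < T := by linarith
  have hδ : 0 < (κ:ℝ) / T := by positivity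
  have hYf : 0 < Yf κ T := by unfold Yf; positivity
  set N := M * B with hN
  set bb : ℂ → ℕ → ℂ := fun ε j => if j = 0 then 0 else (gx f M m j + ε * gx f M n j) / 2 with hbb
  have hbn : ∀ ε : ℂ, ‖ε‖ = 1 → ∀ j, ‖bb ε j‖ ≤ 1 := by
    intro ε hε j
    rw [hbb]; simp only
    split_ifs with hj
    · simp
    · rw [norm_div, Complex.norm_ofNat, div_le_one (by norm_num)]
      have a1 := gx_norm hf M (x := m) hj
      have a2 := gx_norm hf M (x := n) hj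
      calc _ ≤ ‖gx f M m j‖ + ‖ε * gx f M n j‖ := norm_add_le _ _
        _ ≤ 1 + 1 := by rw [norm_mul, hε, one_mul]; exact add_le_add a1 a2
        _ = 2 := by norm_num
  have key : ∀ (ε : ℂ) (F : ℕ → ℂ), ∑ j ∈ Icc 1 N, bb ε j * F j =
      ((∑ a ∈ Icc 1 M, f a * F (a * m)) + ε * ∑ a ∈ Icc 1 M, f a * F (a * n)) / 2 := by
    intro ε F
    rw [← gx_sum f hx1 hx3 F, ← gx_sum f hx2 hx4 F, mul_sum, ← sum_add_distrib, sum_div]
    refine sum_congr rfl fun j hj => ?_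
    rw [mem_Icc] at hj
    rw [hbb]; simp only
    rw [if_neg (by omega)]; ring
  have keyc : ∀ (ε : ℂ) (F : ℕ → ℂ), ∑ j ∈ Icc 1 N, (starRingEnd ℂ) (bb ε j) * F j =
      ((∑ a ∈ Icc 1 M, (starRingEnd ℂ) (f a) * F (a * m)) +
        (starRingEnd ℂ) ε * ∑ a ∈ Icc 1 M, (starRingEnd ℂ) (f a) * F (a * n)) / 2 := by
    intro ε F
    rw [← gx_sum (fun a => (starRingEnd ℂ) (f a)) hx1 hx3 F, ← gx_sum (fun a => (starRingEnd ℂ) (f a)) hx2 hx4 F,
      mul_sum, ← sum_add_distrib, sum_div]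
    refine sum_congr rfl fun j hj => ?_
    rw [mem_Icc] at hj
    rw [hbb]; simp only
    rw [if_neg (by omega), map_div₀, map_add, map_mul, gx_conj, gx_conj, map_ofNat]; ring
  set X : ℝ → ℂ := fun t => DP f M t * (m : ℂ) ^ (-(cl t)) with hX
  set Y : ℝ → ℂ := fun t => DP f M t * (n : ℂ) ^ (-(cl t)) with hY
  have hXY : ∀ (ε : ℂ) (t : ℝ), ∑ j ∈ Icc 1 N, bb ε j * (j : ℂ) ^ (-(cl t)) = (X t + ε * Y t) / 2 := by
    intro ε t
    rw [key ε (fun j => (j : ℂ) ^ (-(cl t)))]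
    have e1 : ∀ q : ℕ, ∑ a ∈ Icc 1 M, f a * ((a * q : ℕ) : ℂ) ^ (-(cl t)) = DP f M t * (q : ℂ) ^ (-(cl t)) := by
      intro q
      unfold DP
      rw [sum_mul]
      refine sum_congr rfl fun a _ => ?_
      rw [Nat.cast_mul, Complex.natCast_mul_natCast_cpow]; ring
    rw [e1, e1]
  have hmain : ∀ (ε : ℂ), ‖ε‖ = 1 →
      ‖((∫ t in Set.Ioi (0 : ℝ), wz κ T t * ‖(X t + ε * Y t) / 2‖ ^ 2 : ℝ) : ℂ) -
        (BF κ T f M (m, m) + (starRingEnd ℂ) ε * BF κ T f M (m, n) + ε * BF κ T f M (n, m) +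
          ε * (starRingEnd ℂ) ε * BF κ T f M (n, n)) / 4‖ ≤ T ^ (-η) := by
    intro ε hε
    have h1 := hT κ hκ N hMB (bb ε) (hbn ε hε)
    simp_rw [hXY ε] at h1
    have e3 : ∀ h ∈ Icc 1 N, ∀ l ∈ Icc 1 N, ((1 / (Nat.lcm h l : ℝ) *
        (Real.log (Yf κ T * (Nat.gcd h l : ℝ) ^ 2 / ((h : ℝ) * l)) + Ck κ) : ℝ) : ℂ) =
        (Mn κ T (h, l) : ℂ) := by
      intro h hh l hl
      rw [mem_Icc] at hh hl
      rw [Mn_eq hYf (by omega) (by omega)]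
    have e4 : ∑ h ∈ Icc 1 N, ∑ l ∈ Icc 1 N, bb ε h * (starRingEnd ℂ) (bb ε l) *
        ((1 / (Nat.lcm h l : ℝ) *
          (Real.log (Yf κ T * (Nat.gcd h l : ℝ) ^ 2 / ((h : ℝ) * l)) + Ck κ) : ℝ) : ℂ) =
        (BF κ T f M (m, m) + (starRingEnd ℂ) ε * BF κ T f M (m, n) + ε * BF κ T f M (n, m) +
          ε * (starRingEnd ℂ) ε * BF κ T f M (n, n)) / 4 := by
      have e5 : ∀ h ∈ Icc 1 N, ∑ l ∈ Icc 1 N, bb ε h * (starRingEnd ℂ) (bb ε l) *
        ((1 / (Nat.lcm h l : ℝ) *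
          (Real.log (Yf κ T * (Nat.gcd h l : ℝ) ^ 2 / ((h : ℝ) * l)) + Ck κ) : ℝ) : ℂ) =
        bb ε h * (((∑ a ∈ Icc 1 M, (starRingEnd ℂ) (f a) * (Mn κ T (h, a * m) : ℂ)) +
          (starRingEnd ℂ) ε * ∑ a ∈ Icc 1 M, (starRingEnd ℂ) (f a) * (Mn κ T (h, a * n) : ℂ)) / 2) := by
        intro h hh
        rw [← keyc ε (fun l => (Mn κ T (h, l) : ℂ)), mul_sum]
        refine sum_congr rfl fun l hl => ?_
        rw [e3 h hh l hl]; ring
      rw [sum_congr rfl e5, key ε (fun h => (((∑ a ∈ Icc 1 M, (starRingEnd ℂ) (f a) * (Mn κ T (h, a * m) : ℂ)) +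
          (starRingEnd ℂ) ε * ∑ a ∈ Icc 1 M, (starRingEnd ℂ) (f a) * (Mn κ T (h, a * n) : ℂ)) / 2))]
      have e6 : ∀ p q : ℕ, BF κ T f M (p, q) = ∑ b ∈ Icc 1 M, f b * ∑ a ∈ Icc 1 M,
          (starRingEnd ℂ) (f a) * (Mn κ T (b * p, a * q) : ℂ) := by
        intro p q
        unfold BF
        refine sum_congr rfl fun b _ => ?_
        rw [mul_sum]
        refine sum_congr rfl fun a _ => ?_
        simp only
        ring
      have e7 : ∀ p : ℕ, ∑ b ∈ Icc 1 M, f b * (((∑ a ∈ Icc 1 M, (starRingEnd ℂ) (f a) * (Mn κ T (b * p, a * m) : ℂ)) +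
          (starRingEnd ℂ) ε * ∑ a ∈ Icc 1 M, (starRingEnd ℂ) (f a) * (Mn κ T (b * p, a * n) : ℂ)) / 2) =
          (BF κ T f M (p, m) + (starRingEnd ℂ) ε * BF κ T f M (p, n)) / 2 := by
        intro p
        rw [e6, e6, mul_sum, ← sum_add_distrib, sum_div]
        refine sum_congr rfl fun b _ => ?_
        ring
      rw [e7, e7]
      ring
    rw [e4] at h1
    exact h1
  have hp := hmain 1 (by simp)
  have hq := hmain (-1) (by simp)
  have hr := hmain Complex.I (by simp)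
  have hs := hmain (-Complex.I) (by simp)
  have hcl : Continuous cl := by unfold cl; fun_prop
  have hcm : Continuous fun t : ℝ => (m : ℂ) ^ (-(cl t)) :=
    Continuous.const_cpow (by fun_prop) (Or.inl (by exact_mod_cast hx1))
  have hcn : Continuous fun t : ℝ => (n : ℂ) ^ (-(cl t)) :=
    Continuous.const_cpow (by fun_prop) (Or.inl (by exact_mod_cast hx2))
  have hDc := DP_cont f M
  have hnm : ∀ (j : ℕ), j ≠ 0 → ∀ t : ℝ, ‖(j : ℂ) ^ (-(cl t))‖ ≤ 1 := by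
    intro j hj t
    rw [Complex.norm_natCast_cpow_of_pos (Nat.pos_of_ne_zero hj)]
    refine Real.rpow_le_one_of_one_le_of_nonpos (by exact_mod_cast Nat.pos_of_ne_zero hj) ?_
    unfold cl; simp
  have hXc : Continuous X := hDc.mul hcm
  have hYc : Continuous Y := hDc.mul hcn
  have hXn : ∀ t, ‖X t‖ ≤ M := fun t => by
    rw [hX]; simp only
    rw [norm_mul]
    calc _ ≤ (M:ℝ) * 1 := mul_le_mul (DP_norm hf M t) (hnm m hx1 t) (norm_nonneg _) (Nat.cast_nonneg _)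
      _ = M := mul_one _
  have hYn : ∀ t, ‖Y t‖ ≤ M := fun t => by
    rw [hY]; simp only
    rw [norm_mul]
    calc _ ≤ (M:ℝ) * 1 := mul_le_mul (DP_norm hf M t) (hnm n hx2 t) (norm_nonneg _) (Nat.cast_nonneg _)
      _ = M := mul_one _
  have hi : ∀ ε : ℂ, ‖ε‖ = 1 → IntegrableOn (fun t => wz κ T t * ‖(X t + ε * Y t) / 2‖ ^ 2) (Set.Ioi 0) := by
    intro ε hε
    refine wz_int κ hδ (C := (M:ℝ) ^ 2) (by fun_prop) fun t => ?_
    rw [abs_of_nonneg (by positivity)]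
    refine pow_le_pow_left₀ (norm_nonneg _) ?_ 2
    rw [norm_div, Complex.norm_ofNat, div_le_iff₀ (by norm_num)]
    have a1 := norm_add_le (X t) (ε * Y t)
    have a2 : ‖ε * Y t‖ = ‖Y t‖ := by rw [norm_mul, hε, one_mul]
    linarith [hXn t, hYn t]
  have hZ : (∫ t in Set.Ioi (0:ℝ), ((wz κ T t * ‖DP f M t‖ ^ 2 : ℝ) : ℂ) * mh t (m, n)) =
      ((∫ t in Set.Ioi (0 : ℝ), wz κ T t * ‖(X t + 1 * Y t) / 2‖ ^ 2 : ℝ) : ℂ) -
      ((∫ t in Set.Ioi (0 : ℝ), wz κ T t * ‖(X t + (-1) * Y t) / 2‖ ^ 2 : ℝ) : ℂ) +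
      Complex.I * ((∫ t in Set.Ioi (0 : ℝ), wz κ T t * ‖(X t + Complex.I * Y t) / 2‖ ^ 2 : ℝ) : ℂ) -
      Complex.I * ((∫ t in Set.Ioi (0 : ℝ), wz κ T t * ‖(X t + (-Complex.I) * Y t) / 2‖ ^ 2 : ℝ) : ℂ) := by
    have h5 := int4 (μ := volume.restrict (Set.Ioi (0:ℝ))) (hi 1 (by simp)) (hi (-1) (by simp))
      (hi Complex.I (by simp)) (hi (-Complex.I) (by simp))
    rw [← h5]
    refine setIntegral_congr_fun measurableSet_Ioi fun t _ => ?_
    have h2 := pol4 (X t) (Y t)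
    have h3 : X t * (starRingEnd ℂ) (Y t) = ((‖DP f M t‖ ^ 2 : ℝ) : ℂ) * mh t (m, n) := by
      rw [mh_eq t m hx2, hX, hY]
      simp only
      rw [map_mul]
      have h4 : ((‖DP f M t‖ ^ 2 : ℝ) : ℂ) = DP f M t * (starRingEnd ℂ) (DP f M t) := by
        rw [Complex.mul_conj, Complex.normSq_eq_norm_sq]
      rw [h4]; ring
    rw [h3] at h2
    rw [Complex.ofReal_mul, mul_assoc, ← h2]
    simp only [Complex.ofReal_mul]
    ring
  rw [hZ, alg4 _ _ _ _ (BF κ T f M (m, m)) (BF κ T f M (m, n)) (BF κ T f M (n, m)) (BF κ T f M (n, n))]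
  exact nrm4 hp hq hr hs

end

end Pool.Agent.Y726.SX
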